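import Pool.Agent.MP_3ce0a0_al.H79.SpecN

/-
Logarithms of unipotent automorphisms.
-/

namespace Pool.Agent.MP_3ce0a0_al.H84

open Pool.Agent.MP_3ce0a0_al.H79 IsNilpotent Finset

section general
variable {A : Type} [Ring A] [Algebra ℂ A] [Module ℚ A]

theorem qmem {S : Subalgebra ℂ A} (q : ℚ) {x : A} (hx : x ∈ S) : q • x ∈ S := by
  have h : q • x = (q : ℂ) • x := ratCast_smul_eq ℚ ℂ q x
  rw [h]
  exact S.smul_mem hx _

theorem exp_form {N : A} (hN : IsNilpotent N) :
    ∃ c ∈ Algebra.adjoin ℂ {N}, exp N = 1 + N + N * N * c := by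
  obtain ⟨k, hk⟩ := hN
  have hk2 : N ^ (k + 2) = 0 := by rw [pow_add, hk, zero_mul]
  refine ⟨∑ i ∈ range k, (((i + 2).factorial : ℚ)⁻¹) • N ^ i, ?_, ?_⟩
  · refine Subalgebra.sum_mem _ fun i _ => ?_
    exact qmem _ (Subalgebra.pow_mem _ (Algebra.self_mem_adjoin_singleton ℂ N) _)
  · rw [exp_eq_sum hk2, sum_range_succ', sum_range_succ', mul_sum]
    have : ∀ i ∈ range k, (((i + 1 + 1).factorial : ℚ)⁻¹) • N ^ (i + 1 + 1) =
        N * N * ((((i + 2).factorial : ℚ)⁻¹) • N ^ i) := by
      intro i _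
      rw [mul_smul_comm, _root_.pow_succ', _root_.pow_succ', mul_assoc]
    rw [sum_congr rfl this]
    simp only [zero_add, Nat.factorial_one, Nat.cast_one, inv_one, pow_one, one_smul,
      Nat.factorial_zero, pow_zero]
    abel

end general

theorem log_comm {B : Type} [CommRing B] [Algebra ℂ B] [Module ℚ B] {n : B}
    (hn : IsNilpotent n) : ∃ c, exp (n * c) = 1 + n := by
  have key : ∀ k : ℕ, ∃ c d, exp (n * c) = 1 + n + n ^ (k + 1) * d := by
    intro k
    induction k with
    | zero => exact ⟨0, -1, by simp⟩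
    | succ k ih =>
      obtain ⟨c, d, h⟩ := ih
      have h1 : IsNilpotent (n * c) := (Commute.all _ _).isNilpotent_mul_right hn
      have h2 : IsNilpotent (n * (-(n ^ k * d))) := (Commute.all _ _).isNilpotent_mul_right hn
      obtain ⟨e, -, he⟩ := exp_form h2
      refine ⟨c + -(n ^ k * d), -d - n ^ k * d * d + (1 + n + n ^ (k + 1) * d) * n ^ k * d * d * e,
        ?_⟩
      rw [mul_add, exp_add_of_commute (Commute.all _ _) h1 h2, h, he]
      ring
  obtain ⟨k, hk⟩ := hn
  obtain ⟨c, d, h⟩ := key k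
  exact ⟨c, by rw [h, _root_.pow_succ, hk]; simp⟩

section general
variable {A : Type} [Ring A] [Algebra ℂ A] [Module ℚ A]

theorem log_ex {n : A} (hn : IsNilpotent n) :
    ∃ c ∈ Algebra.adjoin ℂ {n}, exp (n * c) = 1 + n := by
  let S := Algebra.adjoin ℂ {n}
  let _ : CommRing S := { (inferInstance : Ring S) with
    mul_comm := fun a b => Subtype.ext
      (Algebra.commute_of_mem_adjoin_singleton_of_commute b.2
        (Algebra.commute_of_mem_adjoin_self a.2).symm).eq }
  let _ : Module ℚ S := Module.compHom S (algebraMap ℚ ℂ)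
  let n' : S := ⟨n, Algebra.subset_adjoin rfl⟩
  have hn' : IsNilpotent n' := by
    obtain ⟨k, hk⟩ := hn
    exact ⟨k, Subtype.ext (by simpa [n'] using hk)⟩
  obtain ⟨c, hc⟩ := log_comm hn'
  have h1 : IsNilpotent (n' * c) := (Commute.all _ _).isNilpotent_mul_right hn'
  refine ⟨c, c.2, ?_⟩
  have := map_exp h1 S.val
  rw [hc] at this
  simpa [n'] using this.symm

theorem exp_eq_one {M : A} (hM : IsNilpotent M) (h : exp M = 1) : M = 0 := by
  obtain ⟨c, hc, he⟩ := exp_form hM
  have hcomm : Commute M c := Algebra.commute_of_mem_adjoin_self hc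
  have hu : IsUnit (1 + M * c) := (hcomm.isNilpotent_mul_right hM).isUnit_one_add
  have : M * (1 + M * c) = 0 := by
    rw [h, add_assoc] at he
    have h2 : M + M * M * c = 0 := by simpa using he
    rw [mul_add, mul_one, ← mul_assoc, h2]
  exact hu.mul_left_eq_zero.1 this

theorem comm_exp {N : A} (hN : IsNilpotent N) : Commute N (exp N) := by
  obtain ⟨c, hc, he⟩ := exp_form hN
  have hcomm : Commute N c := Algebra.commute_of_mem_adjoin_self hc
  rw [he]
  exact ((Commute.one_right N).add_right (Commute.refl N)).add_right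
    (((Commute.refl N).mul_right (Commute.refl N)).mul_right hcomm)

theorem log_unique {n c N : A} (hn : IsNilpotent n) (hc : c ∈ Algebra.adjoin ℂ {n})
    (he : exp (n * c) = 1 + n) (hN : IsNilpotent N) (h : exp N = 1 + n) : N = n * c := by
  have h1 : Commute N n := by
    have := comm_exp hN
    rw [h] at this
    have h2 := this.sub_right (Commute.one_right N)
    simpa using h2
  have h2 : Commute N (n * c) :=
    h1.mul_right (Algebra.commute_of_mem_adjoin_singleton_of_commute hc h1)
  have h3 : IsNilpotent (n * c) :=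
    (Algebra.commute_of_mem_adjoin_self hc).isNilpotent_mul_right hn
  have h4 : exp (N + -(n * c)) = 1 := by
    rw [exp_add_of_commute h2.neg_right hN h3.neg, h, ← he, exp_mul_exp_neg_self h3]
  have h5 := exp_eq_one (h2.neg_right.isNilpotent_add hN h3.neg) h4
  exact add_neg_eq_zero.1 h5

end general

theorem slog : SLog := by
  intro Z _ _ _
  classical
  let _ : Module ℚ (Module.End ℂ Z) := Module.compHom _ (algebraMap ℚ ℂ)
  let L : (Z ≃ₗ[ℂ] Z) → Module.End ℂ Z := fun u =>
    if h : Unip u then ((u : Module.End ℂ Z) - 1) * (log_ex h).choose else 0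
  have hL : ∀ u, Unip u → ∃ c ∈ Algebra.adjoin ℂ {(u : Module.End ℂ Z) - 1},
      L u = ((u : Module.End ℂ Z) - 1) * c ∧ exp (L u) = (u : Module.End ℂ Z) := by
    intro u h
    obtain ⟨h1, h2⟩ := (log_ex h).choose_spec
    refine ⟨_, h1, by simp only [L, dif_pos h], ?_⟩
    simp only [L, dif_pos h]
    rw [h2]; abel
  have hnil : ∀ u, Unip u → IsNilpotent (L u) := by
    intro u h
    obtain ⟨c, hc, h1, -⟩ := hL u h
    rw [h1]
    exact (Algebra.commute_of_mem_adjoin_self hc).isNilpotent_mul_right h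
  have huniq : ∀ (u : Z ≃ₗ[ℂ] Z) (N : Module.End ℂ Z), IsNilpotent N →
      exp N = (u : Module.End ℂ Z) → Unip u ∧ L u = N := by
    intro u N hN h
    have hu : Unip u := by
      have := isNilpotent_exp_sub_one hN
      rwa [h] at this
    refine ⟨hu, ?_⟩
    obtain ⟨c, hc, h1, h2⟩ := hL u hu
    rw [h1]
    refine (log_unique hu hc ?_ hN ?_).symm
    · rw [← h1, h2]; abel
    · rw [h]; abel
  refine ⟨L, fun u hu => ⟨fun g => ?_, fun v hv huv => ?_, ?_, ?_, ?_, ?_⟩⟩
  · obtain ⟨c, hc, h1, h2⟩ := hL u hu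
    have h3 := map_exp (hnil u hu) (g.conjAlgEquiv ℂ)
    have h4 := huniq (g * u * g⁻¹) (g.conjAlgEquiv ℂ (L u)) ((hnil u hu).map _) (by
      rw [← h3, h2]
      ext z
      simp [LinearEquiv.conjAlgEquiv_apply])
    refine ⟨h4.1, fun z => ?_⟩
    rw [h4.2]
    simp [LinearEquiv.conjAlgEquiv_apply]
  · obtain ⟨c, hc, h1, h2⟩ := hL u hu
    obtain ⟨d, hd, h3, h4⟩ := hL v hv
    have h0 : Commute (u : Module.End ℂ Z) (v : Module.End ℂ Z) := by
      have := congrArg (fun w : Z ≃ₗ[ℂ] Z => (w : Module.End ℂ Z)) huv.eq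
      simp only [LinearEquiv.coe_toLinearMap_mul] at this
      exact this
    have h5 : Commute ((u : Module.End ℂ Z) - 1) ((v : Module.End ℂ Z) - 1) :=
      (h0.sub_right (Commute.one_right _)).sub_left (Commute.one_left _)
    have h6 : Commute ((u : Module.End ℂ Z) - 1) (L v) := by
      rw [h3]
      exact h5.mul_right (Algebra.commute_of_mem_adjoin_singleton_of_commute hd h5)
    have h7 : Commute (L v) (L u) := by
      rw [h1]
      exact h6.symm.mul_right (Algebra.commute_of_mem_adjoin_singleton_of_commute hc h6.symm)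
    refine (huniq (u * v) _ (h7.symm.isNilpotent_add (hnil u hu) (hnil v hv)) ?_).2
    rw [exp_add_of_commute h7.symm (hnil u hu) (hnil v hv), h2, h4,
      LinearEquiv.coe_toLinearMap_mul]
  · obtain ⟨c, hc, h1, h2⟩ := hL u hu
    refine huniq u⁻¹ _ (hnil u hu).neg ?_
    have h3 := exp_neg_mul_exp_self (hnil u hu)
    rw [h2] at h3
    ext z
    have := LinearMap.congr_fun h3 (u.symm z)
    simpa using this
  · intro W hW z hz
    obtain ⟨c, hc, h1, h2⟩ := hL u hu
    obtain ⟨e, he, h3⟩ := exp_form (hnil u hu)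
    have h4 : ∀ x ∈ W, e x ∈ W := by
      clear h3
      induction he using Algebra.adjoin_induction with
      | mem x hx => rw [Set.mem_singleton_iff.1 hx]; exact hW
      | algebraMap r => intro x hx; simpa using W.smul_mem r hx
      | add a b _ _ ha hb => intro x hx; exact W.add_mem (ha x hx) (hb x hx)
      | mul a b _ _ ha hb => intro x hx; exact ha _ (hb x hx)
    refine ⟨z + L u (e z), W.add_mem hz (hW _ (h4 z hz)), ?_⟩
    rw [h2] at h3
    have := LinearMap.congr_fun h3 z
    simpa [add_assoc] using this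
  · intro z hz
    obtain ⟨c, hc, h1, h2⟩ := hL u hu
    rw [h1, (Algebra.commute_of_mem_adjoin_self hc).eq]
    simp [hz]
  · intro z hz
    obtain ⟨c, hc, h1, h2⟩ := hL u hu
    obtain ⟨e, he, h3⟩ := exp_form (hnil u hu)
    have h4 : Commute (L u * L u) e :=
      (Algebra.commute_of_mem_adjoin_self he).mul_left (Algebra.commute_of_mem_adjoin_self he)
    rw [h2, h4.eq] at h3
    have := LinearMap.congr_fun h3 z
    simpa [hz] using this

end Pool.Agent.MP_3ce0a0_al.H84
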