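import Pool.Agent.MP_3ce0a0_al.H79.XS
import Pool.Agent.MP_3ce0a0_al.H79.XG

/-
Algebraic consequences of the vanishing of the middle weights.
-/

namespace Pool.Agent.MP_3ce0a0_al.H79.X

open Equiv Module Finset Pool.Agent.MP_3ce0a0_al.H62.Inst
open FreeGroup (of)

namespace H84F0

variable {H : Type} [AddCommGroup H] [Module ℂ H]

lemma neg_zero' {v : H} (h : v = -v) : v = 0 := by
  have h2 : (2 : ℂ) • v = 0 := by rw [two_smul]; exact add_eq_zero_iff_eq_neg.2 h
  exact (smul_eq_zero.1 h2).resolve_left two_ne_zero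

lemma geom_zero {U : End ℂ H} {m : ℕ} (hm : 0 < m) (k : ℕ) : ∀ w : H, ((U - 1) ^ k) w = 0 →
    (∑ i ∈ range m, U ^ i) w = 0 → w = 0 := by
  induction k with
  | zero => intro w h _; simpa using h
  | succ k ih =>
    intro w h1 h2
    have c : Commute (∑ i ∈ range m, U ^ i) (U - 1) :=
      Commute.sum_left _ _ _ fun i _ =>
        ((Commute.refl U).pow_left i).sub_right (Commute.one_right _)
    have h3 : (U - 1) w = 0 := ih _ (by rw [← End.mul_apply, ← pow_succ]; exact h1)
      (by rw [← End.mul_apply, c.eq, End.mul_apply, h2, map_zero])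
    have h4 : U w = w := by simpa [sub_eq_zero] using h3
    have h5 : ∀ i, (U ^ i) w = w := fun i => by
      induction i with
      | zero => simp
      | succ i ih' => rw [pow_succ, End.mul_apply, h4, ih']
    rw [LinearMap.sum_apply] at h2
    simp only [h5, sum_const, card_range] at h2
    rw [← Nat.cast_smul_eq_nsmul ℂ] at h2
    exact (smul_eq_zero.1 h2).resolve_left (Nat.cast_ne_zero.2 hm.ne')

/-- unipotent and of finite order on a vector. -/
lemma fix_of_pow {U : End ℂ H} {v : H} {k m : ℕ} (hm : 0 < m) (h1 : ((U - 1) ^ k) v = 0)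
    (h2 : (U ^ m) v = v) : U v = v := by
  have h3 : (U - 1) v = 0 := geom_zero hm k _
    (by rw [← End.mul_apply, ← pow_succ, pow_succ', End.mul_apply, h1, map_zero])
    (by rw [← End.mul_apply, geom_sum_mul]; simp [h2])
  simpa [sub_eq_zero] using h3

variable {ι : Type} [DecidableEq ι]

lemma split {x : ι → End ℂ H} (h1 : ∀ a, x a * x a = 1) (h2 : ∀ a b, Commute (x a) (x b))
    (T : Submodule ℂ H) (S : Finset ι) : ∀ Q : Submodule ℂ H, (∀ a, Keeps (x a) Q) →
    (∀ I ⊆ S, ∀ v ∈ Q, v ∈ JE x S I → v ∈ T) → Q ≤ T := by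
  induction S using Finset.induction_on with
  | empty => exact fun Q _ h v hv => h ∅ (Subset.refl _) v hv (mem_JE.2 (by simp))
  | insert a S ha ih =>
    intro Q hQ h v hv
    have e1 : ∀ w, x a (x a w) = w := fun w => by rw [← End.mul_apply, h1, End.one_apply]
    have k : ∀ c : ℂ, ∀ b, Keeps (x b) (Q ⊓ End.eigenspace (x a) c) := fun c b w hw =>
      ⟨hQ b w hw.1, End.mem_eigenspace_iff.2 (by
        rw [← End.mul_apply, (h2 a b).eq, End.mul_apply, End.mem_eigenspace_iff.1 hw.2, map_smul])⟩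
    have p1 : Q ⊓ End.eigenspace (x a) 1 ≤ T := ih _ (k 1) fun I hI w hw hw' =>
      h I (hI.trans (subset_insert _ _)) w hw.1 (mem_JE.2 fun b hb => by
        rcases mem_insert.1 hb with rfl | hb
        · rw [if_neg fun k => ha (hI k), End.mem_eigenspace_iff.1 hw.2, one_smul]
        · exact mem_JE.1 hw' b hb)
    have p2 : Q ⊓ End.eigenspace (x a) (-1) ≤ T := ih _ (k (-1)) fun I hI w hw hw' =>
      h (insert a I) (insert_subset_insert _ hI) w hw.1 (mem_JE.2 fun b hb => by
        rcases mem_insert.1 hb with rfl | hb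
        · rw [if_pos (mem_insert_self _ _), End.mem_eigenspace_iff.1 hw.2, neg_one_smul]
        · have : b ≠ a := fun e => ha (e ▸ hb)
          simpa [this] using mem_JE.1 hw' b hb)
    have q1 : v + x a v ∈ T := p1 ⟨Q.add_mem hv (hQ a v hv), End.mem_eigenspace_iff.2 (by
      rw [map_add, e1, one_smul, add_comm])⟩
    have q2 : v - x a v ∈ T := p2 ⟨Q.sub_mem hv (hQ a v hv), End.mem_eigenspace_iff.2 (by
      rw [map_sub, e1, neg_one_smul, neg_sub])⟩
    have q3 : v = (2 : ℂ)⁻¹ • ((v + x a v) + (v - x a v)) := by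
      rw [add_add_sub_cancel, ← two_smul ℂ v, smul_smul, inv_mul_cancel₀ two_ne_zero, one_smul]
    rw [q3]
    exact T.smul_mem _ (T.add_mem q1 q2)

variable {r : Rep ι H} {v : H}

omit [DecidableEq ι] in
lemma rm (r : Rep ι H) (α β : A ι) (v : H) : r (α * β) v = r α (r β v) := by
  rw [map_mul, End.mul_apply]

lemma ee (r : Rep ι H) (a : ι) (v : H) : r (ep a) (r (ep a) v) = v := by
  rw [← rm, ep_sq, map_one, End.one_apply]

omit [DecidableEq ι] in
lemma cm (r : Rep ι H) {α β : A ι} (h : Commute α β) (v : H) : r α (r β v) = r β (r α v) := by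
  rw [← rm, h.eq, rm]

lemma ec (r : Rep ι H) (a b : ι) (v : H) : r (ep a) (r (ep b) v) = r (ep b) (r (ep a) v) :=
  cm r (ep_comm a b) v

lemma mem_Z0 : v ∈ Z0 r ↔ ∀ a b, r (ep a) (r (ep b) v) = v := by
  simp only [Z0, Submodule.mem_iInf, End.mem_eigenspace_iff, one_smul, rm]

lemma mem_Za {a : ι} : v ∈ Za r a ↔ ∀ f, f ≠ a → r (ep a) (r (ep f) v) = -v := by
  simp only [Za, Submodule.mem_iInf, End.mem_eigenspace_iff, neg_one_smul, rm]

lemma Za_e {c a : ι} (hv : v ∈ Za r c) (h : a ≠ c) : r (ep a) v = -r (ep c) v := by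
  have := congrArg (r (ep c)) (mem_Za.1 hv a h)
  rwa [ee, map_neg] at this

lemma Za_ee {c a b : ι} (hv : v ∈ Za r c) (ha : a ≠ c) (hb : b ≠ c) :
    r (ep a) (r (ep b) v) = v := by
  rw [Za_e hv hb, map_neg, ec, Za_e hv ha, map_neg, neg_neg, ee]

lemma Z0_e (hv : v ∈ Z0 r) (a b : ι) : r (ep a) v = r (ep b) v := by
  have := congrArg (r (ep a)) (mem_Z0.1 hv a b)
  rw [ee] at this
  exact this.symm

lemma keeps_Z0 {f : End ℂ H} (h : ∀ a v, f (r (ep a) v) = r (ep a) (f v)) : Keeps f (Z0 r) :=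
  fun v hv => mem_Z0.2 fun a b => by rw [← h, ← h, mem_Z0.1 hv]

lemma keeps_Za {f : End ℂ H} (h : ∀ a v, f (r (ep a) v) = r (ep a) (f v)) (c : ι) :
    Keeps f (Za r c) :=
  fun v hv => mem_Za.2 fun b hb => by rw [← h, ← h, mem_Za.1 hv b hb, map_neg]

lemma keeps_eig' {α β : A ι} (h : Commute α β) (c : ℂ) :
    Keeps (r α) (End.eigenspace (r β) c) := fun v hv => End.mem_eigenspace_iff.2 (by
  rw [← cm r h, End.mem_eigenspace_iff.1 hv, map_smul])

lemma epJ_apply {a₀ : ι} (J : Finset ι) (h : ∀ a ∈ J, r (ep a) v = r (ep a₀) v) :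
    r (epJ J) v = if Even J.card then v else r (ep a₀) v := by
  induction J using Finset.induction_on with
  | empty => simp [epJ_empty]
  | insert a J ha ih =>
    rw [epJ_insert ha, rm, ih fun b hb => h b (mem_insert_of_mem hb), card_insert_of_notMem ha]
    by_cases k : Even J.card
    · rw [if_pos k, if_neg (by simpa [Nat.even_add_one] using k), h a (mem_insert_self _ _)]
    · rw [if_neg k, if_pos (Nat.even_add_one.2 k), ec, h a (mem_insert_self _ _), ee]

lemma ep_epJ (a : ι) (J : Finset ι) : Commute (ep a) (epJ J) :=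
  aut_ext fun c => by
    by_cases k : c = a <;> by_cases l : c ∈ J <;> simp_all [ep_of, epJ_of]

lemma pm_Za (σ : Perm ι) (c : ι) (hv : v ∈ Za r c) : r (pm σ) v ∈ Za r (σ c) :=
  mem_Za.2 fun f hf => by
    obtain ⟨g, rfl⟩ := σ.surjective f
    rw [← rm r (ep (σ g)), ← pm_ep, rm, ← rm r (ep (σ c)), ← pm_ep, rm,
      mem_Za.1 hv g fun e => hf (by rw [e]), map_neg]

lemma prod_m (a : ι) (L : List ι) (h : L.Nodup) (ha : a ∉ L) (x : ι) :
    (L.map fun b => la b a * rh b a).prod (of x) =
      if x ∈ L then of a * of x * of a else of x := by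
  induction L with
  | nil => simp
  | cons b L ih =>
    rw [List.nodup_cons] at h
    rw [List.mem_cons, not_or] at ha
    have hb : b ≠ a := fun k => ha.1 k.symm
    rw [List.map_cons, List.prod_cons, MulAut.mul_apply, ih h.2 ha.2]
    by_cases k : x = b
    · simp [k, h.1, rh_of hb, la_of hb, ha.1]
    · by_cases l : x ∈ L <;> simp [k, l, rh_of hb, la_of hb, ha.1]

variable [Fintype ι]

/-- the product of the right transvections by `a`. -/
noncomputable def W (a : ι) : A ι := ((univ.erase a).toList.map fun b => rh b a).prod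

lemma W_of (a x : ι) : W a (of x) = if x = a then of a else of x * of a := by
  rw [W, prod_rh a _ (nodup_toList _) (by simp)]
  by_cases k : x = a <;> simp [k]

lemma th_W {a f : ι} (h : f ≠ a) :
    ep a * ep f * W a * (ep a * ep f) * W a = la f a * rh f a :=
  aut_ext fun c => by
    by_cases k : c = a
    · simp [k, W_of, ep_of, rh_of h, la_of h, h.symm]
    · by_cases l : c = f
      · simp [l, W_of, ep_of, rh_of h, la_of h, h, h.symm, mul_assoc]
      · simp [k, l, W_of, ep_of, rh_of h, la_of h, h.symm]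

lemma prod_W (a : ι) : ((univ.erase a).toList.map fun b => la b a * rh b a).prod =
    MulAut.conj (of a) * (W a * W a) :=
  aut_ext fun c => by
    rw [prod_m a _ (nodup_toList _) (by simp)]
    by_cases k : c = a <;> simp [k, W_of, mul_assoc]

lemma fresh (hn : 12 ≤ Fintype.card ι) (a b c d : ι) : ∃ f, f ≠ a ∧ f ≠ b ∧ f ≠ c ∧ f ≠ d := by
  obtain ⟨f, -, hf⟩ := exists_mem_notMem_of_card_lt_card (s := ({a, b, c, d} : Finset ι))
    (t := univ) (lt_of_le_of_lt card_le_four (by rw [card_univ]; omega))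
  exact ⟨f, by simpa [not_or] using hf⟩

lemma del_Z0 (hn : 12 ≤ Fintype.card ι) (he : Even (Fintype.card ι)) (hv : v ∈ Z0 r) :
    r (epJ univ) v = v := by
  obtain ⟨a⟩ : Nonempty ι := Fintype.card_pos_iff.1 (by omega)
  rw [epJ_apply (a₀ := a) univ fun b _ => Z0_e hv b a, if_pos (by rwa [card_univ])]

lemma del_Za (he : Even (Fintype.card ι)) {c : ι} (hv : v ∈ Za r c) : r (epJ univ) v = -v := by
  have h1 : ¬Even (univ.erase c).card := by
    rw [← Nat.even_add_one, card_erase_add_one (mem_univ c), card_univ]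
    exact he
  have : Nontrivial ι := Fintype.one_lt_card_iff_nontrivial.1 (by
    have := Fintype.card_pos_iff.2 ⟨c⟩
    obtain ⟨k, hk⟩ := he
    omega)
  obtain ⟨a, ha⟩ := exists_ne c
  rw [← insert_erase (mem_univ c), epJ_insert (notMem_erase c univ), rm,
    epJ_apply (a₀ := a) _ fun b hb => by rw [Za_e hv (ne_of_mem_erase hb), Za_e hv ha],
    if_neg h1, mem_Za.1 hv a ha]

/-- the splitting principle. -/
lemma split' (hn : 12 ≤ Fintype.card ι)
    (hs : ∀ I : Finset ι, 2 ≤ I.card → I.card + 2 ≤ Fintype.card ι → Sec r univ I = ⊥)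
    {Q T : Submodule ℂ H} (hQ : ∀ a, Keeps (r (ep a)) Q) (h0 : ∀ v ∈ Q, v ∈ Z0 r → v ∈ T)
    (h1 : ∀ a I, NC univ I → ∀ v ∈ Q, v ∈ Za r a → v ∈ Sec r univ I → v ∈ T) : Q ≤ T := by
  refine split (x := fun a => r (ep a)) (fun a => by rw [← map_mul, ep_sq, map_one])
    (fun a b => (ep_comm a b).map r) T univ Q hQ fun I _ v hv hI => ?_
  have hI' : ∀ a, r (ep a) v = if a ∈ I then -v else v := fun a => mem_JE.1 hI a (mem_univ a)
  have hc := card_compl I
  have hle := card_le_univ I
  by_cases k0 : I.card = 0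
  · rw [card_eq_zero] at k0
    exact h0 v hv (mem_Z0.2 fun a b => by simp [hI', k0])
  by_cases k1 : I.card = 1
  · obtain ⟨a, rfl⟩ := card_eq_one.1 k1
    refine h1 a {a} ⟨subset_univ _, singleton_nonempty a, fun e => ?_⟩ v hv
      (mem_Za.2 fun f hf => by simp [hI', hf]) hI
    rw [e, card_univ] at k1
    omega
  by_cases k2 : Iᶜ.card = 0
  · rw [card_eq_zero, compl_eq_empty_iff] at k2
    exact h0 v hv (mem_Z0.2 fun a b => by simp [hI', k2])
  by_cases k3 : Iᶜ.card = 1
  · obtain ⟨a, ha⟩ := card_eq_one.1 k3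
    have hm : ∀ f, f ∈ I ↔ f ≠ a := fun f => by
      rw [← not_iff_not, ← mem_compl, ha]
      simp
    refine h1 a I ⟨subset_univ _, card_pos.1 (by omega), fun e => ?_⟩ v hv
      (mem_Za.2 fun f hf => by simp [hI', hm, hf]) hI
    exact (hm a).1 (e ▸ mem_univ a) rfl
  have : v ∈ (⊥ : Submodule ℂ H) := hs I (by omega) (by omega) ▸ hI
  rw [(Submodule.mem_bot ℂ).1 this]
  exact T.zero_mem

lemma indep (hn : 12 ≤ Fintype.card ι) (he : Even (Fintype.card ι)) :
    iSupIndep (fun o : Option ι => o.elim (Z0 r) (Za r)) := by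
  rw [iSupIndep_def]
  rintro (_ | a)
  · have : (⨆ j, ⨆ (_ : j ≠ none), (Option.elim j (Z0 r) (Za r))) ≤
        End.eigenspace (r (epJ univ)) (-1) := by
      refine iSup₂_le ?_
      rintro (_ | b) hb v hv
      · exact (hb rfl).elim
      · exact End.mem_eigenspace_iff.2 (by rw [neg_one_smul]; exact del_Za he hv)
    refine Submodule.disjoint_def.2 fun v hv hv' => neg_zero' ?_
    have h1 := End.mem_eigenspace_iff.1 (this hv')
    rwa [del_Z0 hn he hv, neg_one_smul] at h1
  · obtain ⟨f, hf, -⟩ := fresh hn a a a a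
    obtain ⟨g, hg, hg', -⟩ := fresh hn a f a a
    have cc : Commute (1 - r (ep a * ep f)) (1 - r (ep a * ep g)) := by
      have : Commute (r (ep a * ep f)) (r (ep a * ep g)) :=
        (((ep_comm a a).mul_left (ep_comm f a)).mul_right
          ((ep_comm a g).mul_left (ep_comm f g))).map r
      exact (Commute.one_left _).sub_left ((Commute.one_right _).sub_right this)
    have : (⨆ j, ⨆ (_ : j ≠ some a), (Option.elim j (Z0 r) (Za r))) ≤
        LinearMap.ker ((1 - r (ep a * ep f)) * (1 - r (ep a * ep g))) := by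
      refine iSup₂_le ?_
      rintro (_ | b) hb v hv
      · have := mem_Z0.1 hv a g
        simp [this]
      · have hb' : a ≠ b := fun e => hb (by rw [e])
        by_cases k : g = b
        · have := Za_ee hv hb' (show f ≠ b from fun e => hg' (k.trans e.symm))
          rw [cc.eq]
          simp [this]
        · have := Za_ee hv hb' k
          simp [this]
    refine Submodule.disjoint_def.2 fun v hv hv' => ?_
    have h1 := this hv'
    have h2 := mem_Za.1 hv f hf
    have h3 := mem_Za.1 hv g hg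
    simp only [LinearMap.mem_ker, map_mul, End.mul_apply, LinearMap.sub_apply, End.one_apply, h2,
      h3, map_add, sub_neg_eq_add] at h1
    have h4 : (4 : ℂ) • v = 0 := by
      rw [← h1]
      module
    exact (smul_eq_zero.1 h4).resolve_left (by norm_num)

variable [FiniteDimensional ℂ H] {s : ι → ι → End ℂ H}

omit [Fintype ι] in
lemma sg_prod (h : SSg) (hs : SgD r s) (a : ι) (L : List ι) (hL : L.Nodup) (ha : a ∉ L) :
    IsSg (L.map fun b => s b a).prod (r (L.map fun b => rh b a).prod) := by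
  induction L with
  | nil => simp [IsSg, Uni]
  | cons b L ih =>
    rw [List.nodup_cons] at hL
    rw [List.mem_cons, not_or] at ha
    have hb : b ≠ a := fun k => ha.1 k.symm
    rw [List.map_cons, List.prod_cons, List.map_cons, List.prod_cons, map_mul]
    refine (((h H (r (rh b a))).2 _ (hs.2.1 b a hb).1).2.2.2.2.2.2.2.2.2.2 _ _ (ih hL.2 ha.2)
      (Commute.map (Commute.list_prod_right _ _ fun y hy => ?_) r)).2
    obtain ⟨c, hc, rfl⟩ := List.mem_map.1 hy
    have h1 : c ≠ a := fun e => ha.2 (e ▸ hc)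
    exact (N0 ι).ρ_ρ b a c a hb h1 (fun e => hL.1 (e ▸ hc)) hb h1

lemma W_sig (h : SSg) (hF : FH r s) (hd : End.eigenspace (r (epJ univ)) 1 = Z0 r) (a : ι)
    (hv : v ∈ Z0 r) : r (W a) v = sig s a v := by
  obtain ⟨hn, he, hI, hs, -, -⟩ := hF
  have hW : Keeps (r (W a)) (Z0 r) := fun w hw => by
    have h1 : r (cage (swap none (some a))) w ∈ Z0 r := by
      rw [← hd, End.mem_eigenspace_iff, one_smul, ← rm, del_cage, rm, hI, End.one_apply, rm,
        del_Z0 hn he hw]
    have h2 := keeps_Z0 (ec r a) _ h1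
    rwa [cage_swap, rm, ee] at h2
  have h2 : ∀ f, f ≠ a → ∀ w ∈ Z0 r, r (la f a * rh f a) w = r (W a * W a) w := fun f hf w hw => by
    rw [← th_W hf]
    simp only [rm]
    rw [mem_Z0.1 (hW w hw), mem_Z0.1 (hW _ (hW w hw))]
  have hk : ∀ k, ∀ w ∈ Z0 r, r ((W a * W a) ^ k) w ∈ Z0 r := fun k w hw => by
    induction k with
    | zero => simpa using hw
    | succ k ih => rw [pow_succ', rm, rm]; exact hW _ (hW _ ih)
  have h3 : ∀ L : List ι, a ∉ L →
      r (L.map fun b => la b a * rh b a).prod v = r ((W a * W a) ^ L.length) v := fun L hL => by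
    induction L with
    | nil => simp
    | cons b L ih =>
      rw [List.mem_cons, not_or] at hL
      rw [List.map_cons, List.prod_cons, rm, ih hL.2, h2 b (fun e => hL.1 e.symm) _ (hk _ v hv),
        ← rm, List.length_cons, pow_succ']
  have h4 := h3 (univ.erase a).toList (by simp)
  obtain ⟨m, hm, hm'⟩ : ∃ m, 0 < m ∧ (univ.erase a).toList.length = m + 1 :=
    ⟨Fintype.card ι - 2, by omega, by
      rw [length_toList, card_erase_of_mem (mem_univ a), card_univ]; omega⟩
  rw [prod_W, rm, hI, End.one_apply, hm', pow_succ', rm r _ (_ ^ m)] at h4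
  have h5 := congrArg (r (W a * W a)⁻¹) h4
  rw [← rm, ← rm, inv_mul_cancel, map_one, End.one_apply, End.one_apply] at h5
  obtain ⟨q1, q2, k, q3⟩ : IsSg (sig s a) (r (W a)) := sg_prod h hs a _ (nodup_toList _) (by simp)
  have h6 : (sig s a * r (W a)) v = v := fix_of_pow (k := k) (m := 2 * m) (by omega)
    (by rw [q3, LinearMap.zero_apply]) (by
      rw [q2.mul_pow, pow_mul, pow_two, q1, one_pow, one_mul, pow_mul, pow_two, ← map_mul,
        ← map_pow, ← h5])
  have h7 := congrArg (sig s a) h6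
  rwa [← End.mul_apply, ← mul_assoc, q1, one_mul] at h7

lemma ta_Za (h : SSg) (hF : FH r s) (hy : ∀ c d, c ≠ d →
      End.eigenspace (r (ep c * ep d)) (-1) = Za r c ⊔ Za r d)
    (h1 : ∀ a b c, a ≠ b → ∀ v ∈ Za r c, s a b v = v) {a b c : ι} (hab : a ≠ b) (ha : a ≠ c)
    (hb : b ≠ c) (hv : v ∈ Za r c) : r (ta a b) v = -r (ep c) v := by
  obtain ⟨hn, he, hI, hs, -, -⟩ := hF
  obtain ⟨d, d1, d2, d3, -⟩ := fresh hn a b c c
  have hE : ∀ x y, x ≠ c → x ≠ d → y ≠ c → y ≠ d → ∀ w ∈ Za r c ⊔ Za r d,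
      r (ep x) (r (ep y) w) = w := fun x y x1 x2 y1 y2 w hw => by
    obtain ⟨p, hp, q, hq, rfl⟩ := Submodule.mem_sup.1 hw
    rw [map_add, map_add, Za_ee hp x1 y1, Za_ee hq x2 y2]
  have hR : ∀ x y, x ≠ y → x ≠ c → x ≠ d → y ≠ c → y ≠ d → ∀ w ∈ Za r c ⊔ Za r d,
      r (rh x y) w = w := fun x y e x1 x2 y1 y2 w hw => by
    have k1 : Keeps (r (rh x y)) (Za r c ⊔ Za r d) := by
      rw [← hy c d d3.symm]
      exact keeps_eig' (((N0 ι).ε_other x y c e x1.symm y1.symm).symm.mul_right
        ((N0 ι).ε_other x y d e x2.symm y2.symm).symm) _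
    obtain ⟨k, hk⟩ := (((h H (r (rh x y))).2 _ (hs.2.1 x y e).1).2.2.2.2.2.2.2.1 _ k1).1
      fun u hu => by
        obtain ⟨p, hp, q, hq, rfl⟩ := Submodule.mem_sup.1 hu
        rw [map_add, h1 x y c e p hp, h1 x y d e q hq]
    obtain ⟨f, f1, f2, f3, f4⟩ := fresh hn x y c d
    refine fix_of_pow (m := 2) two_pos (hk w hw) ?_
    have e1 : rh x y * (ep y * ep f * rh x y * (ep y * ep f)) = 1 := by
      have e2 : ep y * rh x y * ep y = (rh x y)⁻¹ := (N0 ι).ε_right x y e
      have e3 : ep f * rh x y = rh x y * ep f := ((N0 ι).ε_other x y f e f1 f2).eq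
      rw [mul_assoc (ep y), e3, (ep_comm y f).eq, ← mul_assoc _ (ep f), mul_assoc _ _ (ep f),
        mul_assoc _ _ (ep f), ep_sq, mul_one, e2, mul_inv_cancel]
    have e4 := congrArg (fun α => r α w) e1
    simp only [rm, map_one, End.one_apply] at e4
    rw [hE y f y1 y2 f3 f4 w hw, hE y f y1 y2 f3 f4 _ (k1 w hw)] at e4
    rw [pow_two, End.mul_apply, e4]
  have hw : r (ep b) v ∈ Za r c ⊔ Za r d := Submodule.mem_sup_left (keeps_Za (ec r b) c v hv)
  have g1 : r (la a b) (r (ep b) v) = r (ep b) v := by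
    rw [← epep_rh hab]
    simp only [rm]
    rw [hE a b ha d1.symm hb d2.symm _ hw, hR a b hab ha d1.symm hb d2.symm _ hw,
      hE a b ha d1.symm hb d2.symm _ hw]
  have g2 : r (rh b a)⁻¹ (r (ep b) v) = r (ep b) v := by
    have := congrArg (r (rh b a)⁻¹) (hR b a hab.symm hb d2.symm ha d1.symm _ hw)
    rw [← rm, inv_mul_cancel, map_one, End.one_apply] at this
    exact this.symm
  have g3 : rh a b * (rh b a)⁻¹ * la a b = ta a b * ep b := (N0 ι).gersten a b hab
  have g4 := congrArg (fun α => r α (r (ep b) v)) g3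
  simp only [rm] at g4
  rw [g1, g2, hR a b hab ha d1.symm hb d2.symm _ hw, ee] at g4
  rw [← g4, Za_e hv hb]

omit [FiniteDimensional ℂ H] in
lemma pm_even {c : ι} (h : ∀ a b, a ≠ b → a ≠ c → b ≠ c → ∀ v ∈ Za r c,
    r (ta a b) v = -r (ep c) v) (τ : Perm {x // x ≠ c}) (hv : v ∈ Za r c) :
    r (pm (Perm.ofSubtype τ)) v = if Perm.sign τ = 1 then v else -r (ep c) v := by
  induction τ using Perm.swap_induction_on with
  | one => simp
  | swap_mul f x y hxy ih =>
    have e := h x y (fun k => hxy (Subtype.ext k)) x.2 y.2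
    rw [map_mul, map_mul, rm, ih, Perm.ofSubtype_swap_eq, Perm.sign_mul, Perm.sign_swap hxy]
    rcases Int.units_eq_one_or (Perm.sign f) with k | k
    · rw [k, if_pos rfl, if_neg (by decide)]
      exact e v hv
    · rw [k, if_neg (by decide), if_pos (by decide)]
      have := e _ ((Za r c).neg_mem (keeps_Za (ec r c) c v hv))
      rw [map_neg (r (ep c)), neg_neg, ee] at this
      exact this

end H84F0

open H84F0 in
theorem sf0 (h : SSg) : SF0 := by
  intro ι H _ _ _ _ _ r s hF
  obtain ⟨hn, he, hI, hs, ht, hz⟩ := id hF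
  have zz : ∀ {T : Submodule ℂ H} {v : H}, v = -v → v ∈ T := fun e => by
    rw [neg_zero' e]
    exact Submodule.zero_mem _
  have hd : End.eigenspace (r (epJ univ)) 1 = Z0 r := by
    refine le_antisymm (split' hn hz (fun a => keeps_eig' (ep_epJ a _) _) (fun v _ hv => hv)
      fun a I _ v hv hv' _ => zz ?_) fun v hv => ?_
    · rw [← del_Za he hv', End.mem_eigenspace_iff.1 hv, one_smul]
    · rw [End.mem_eigenspace_iff, one_smul, del_Z0 hn he hv]
  have kq : ∀ a c d : ι, Commute (ep a) (ep c * ep d) := fun a c d =>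
    (ep_comm a c).mul_right (ep_comm a d)
  have hy : ∀ c d, c ≠ d → End.eigenspace (r (ep c * ep d)) (-1) = Za r c ⊔ Za r d := by
    refine fun c d hcd => le_antisymm (split' hn hz (fun a => keeps_eig' (kq a c d) _)
      (fun v hv hv' => zz ?_) fun a I _ v hv hv' _ => ?_) (sup_le (fun v hv => ?_) fun v hv => ?_)
    · rw [End.mem_eigenspace_iff, rm, mem_Z0.1 hv', neg_one_smul] at hv
      exact hv
    · by_cases k : c = a
      · exact Submodule.mem_sup_left (k ▸ hv')
      by_cases l : d = a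
      · exact Submodule.mem_sup_right (l ▸ hv')
      rw [End.mem_eigenspace_iff, rm, Za_ee hv' k l, neg_one_smul] at hv
      exact zz hv
    · rw [End.mem_eigenspace_iff, rm, mem_Za.1 hv d hcd.symm, neg_one_smul]
    · rw [End.mem_eigenspace_iff, rm, ec, mem_Za.1 hv c hcd, neg_one_smul]
  have h1 : ∀ a b c, a ≠ b → ∀ v ∈ Za r c, s a b v = v := fun a b c hab v hv => by
    have : Za r c ≤ End.eigenspace (s a b) 1 := by
      refine split' hn hz (fun x => keeps_Za (ec r x) c) (fun w hw hw' => zz ?_)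
        fun x I hI' w _ _ hw => ?_
      · obtain ⟨f, hf, -⟩ := fresh hn c c c c
        rw [← mem_Za.1 hw f hf, mem_Z0.1 hw']
      · rw [End.mem_eigenspace_iff, one_smul, ht I hI' a b hab w hw]
    simpa using End.mem_eigenspace_iff.1 (this hv)
  refine ⟨indep hn he, ?_, hd, ?_, fun c d hcd => ⟨hy c d hcd, ?_⟩, h1, fun a b hab => ?_,
    fun a v hv => ?_, fun σ c v hv => pm_Za σ c hv, fun σ c h2 h3 v hv => ?_⟩
  · exact top_le_iff.1 (split' hn hz (fun _ _ _ => Submodule.mem_top)
      (fun v _ hv => Submodule.mem_sup_left hv) fun a I _ v _ hv _ =>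
        Submodule.mem_sup_right (Submodule.mem_iSup_of_mem a hv))
  · refine le_antisymm (split' hn hz (fun a => keeps_eig' (ep_epJ a _) _) (fun v hv hv' => zz ?_)
      fun a I _ v _ hv' _ => Submodule.mem_iSup_of_mem a hv') (iSup_le fun a v hv => ?_)
    · rw [End.mem_eigenspace_iff, del_Z0 hn he hv', neg_one_smul] at hv
      exact hv
    · rw [End.mem_eigenspace_iff, neg_one_smul, del_Za he hv]
  · refine le_antisymm (split' hn hz (fun a => keeps_eig' (kq a c d) _)
      (fun v _ hv' => Submodule.mem_sup_left hv') fun a I _ v hv hv' _ => ?_)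
      (sup_le (fun v hv => ?_) (iSup₂_le fun a ha v hv => ?_))
    · rw [End.mem_eigenspace_iff, rm, one_smul] at hv
      by_cases k : a = c
      · subst k
        rw [mem_Za.1 hv' d hcd.symm] at hv
        exact zz hv.symm
      by_cases l : a = d
      · subst l
        rw [ec, mem_Za.1 hv' c hcd] at hv
        exact zz hv.symm
      exact Submodule.mem_sup_right
        (Submodule.mem_iSup_of_mem a (Submodule.mem_iSup_of_mem ⟨k, l⟩ hv'))
    · rw [End.mem_eigenspace_iff, rm, mem_Z0.1 hv, one_smul]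
    · rw [End.mem_eigenspace_iff, rm, Za_ee hv ha.1.symm ha.2.symm, one_smul]
  · exact keeps_Z0 fun c v => by
      rw [← End.mul_apply, (hs.2.2.1 a b c hab).eq, End.mul_apply]
  · rw [cage_swap, rm]
    exact congrArg _ (W_sig h hF hd a hv)
  · have p1 : ∀ x, σ x ≠ c ↔ x ≠ c := fun x => by
      rw [← h3, σ.injective.ne_iff, h3]
    have p2 : Perm.ofSubtype (σ.subtypePerm p1) = σ :=
      Perm.ofSubtype_subtypePerm (p := fun x => x ≠ c) p1 fun x hx (e : x = c) =>
        hx (by rw [e, h3])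
    have := pm_even (fun a b hab ha hb v hv => ta_Za h hF hy h1 hab ha hb hv) (σ.subtypePerm p1) hv
    rwa [← Perm.sign_ofSubtype, p2, if_pos h2] at this

end Pool.Agent.MP_3ce0a0_al.H79.X
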